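import Pool.Agent.KS6_65.SC3.Alg

/-!
# Straight-line realizability of rotation systems of graphs of maximum degree at most three

A rotation system on a finite graph of maximum degree at most three is realized by a straight-line
drawing if and only if, for every complete subgraph on four vertices `w 0, w 1, w 2, w 3`, the number
of indices `i` such that the cyclic order at `w i` lists the three other vertices by increasing index
is even; the drawing can be taken without three collinear vertices.  Hence the realizability problem
for the graphs with degrees in a set `D ⊆ {0, 1, 2, 3}` is in P.  For `D = {3}` these are the cubic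
graphs.

The definitions of the library module
`Pool/Graph/R_pool_sql_team_seeded_47a924f7/Results/MP_8b4fe7_lc/CubicRotationInP.lean`
(`RotationSystem`, `IsDrawing`, `LeaveInOrder`, `Realizes`, `Realizable`, `EvenOnK4`, `Encodes`,
`CubicRealizability`) are used.
-/

set_option autoImplicit false

namespace Pool.Agent.Results.MP_8b4fe7_lc.MaximumDegreeThree

open Pool.Agent.NPC Pool.Agent.KS6_65.SC3 Pool.Agent.Results.MP_8b4fe7_lc.CubicRotationInP

/-- No three different vertices are at collinear points: the vectors from `p u` to `p v` and to
`p w` have a nonzero determinant. -/
def NoThreeCollinear {V : Type} (p : V → ℝ × ℝ) : Prop :=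
  ∀ u v w, u ≠ v → v ≠ w → u ≠ w →
    ((p v).1 - (p u).1) * ((p w).2 - (p u).2) - ((p v).2 - (p u).2) * ((p w).1 - (p u).1) ≠ 0

/-- **Realizability of rotation systems of graphs of maximum degree at most three.**
(1) Such a rotation system is realized by a straight-line drawing if and only if it satisfies the
parity condition on every complete subgraph on four vertices. (2) Then some drawing without three
collinear vertices realizes it. (3) For every list `D` of allowed degrees, all at most three, the
realizability problem for the graphs with all degrees in `D` is in P; (4) if it is hard for the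
existential theory of the reals, then this class is contained in P. (5) The cubic graphs are those
with all degrees in `[3]`. -/
theorem result :
    (∀ (V : Type) [Finite V] (G : SimpleGraph V) (π : RotationSystem G),
      (∀ v, (G.neighborSet v).ncard ≤ 3) →
        (Realizable π ↔ EvenOnK4 π) ∧
        (EvenOnK4 π → ∃ p : V → ℝ × ℝ, IsDrawing G p ∧ Realizes π p ∧ NoThreeCollinear p)) ∧
    (∀ D : List ℕ, (∀ d ∈ D, d ≤ 3) →
      InPP (DegreeRealizability D) ∧
      (ER.ERHard (lang (DegreeRealizability D)) → ∀ L, ER.InER L → InP L)) ∧
    (∀ I, DegreeRealizability [3] I ↔ CubicRealizability I) := by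
  refine ⟨?_, fun D hD => ?_, ?_⟩
  · intro V _ G π hG
    refine ⟨characterization π hG, fun hE => ?_⟩
    obtain ⟨p, h1, h2, h3⟩ := realize π hG hE
    exact ⟨p, h1, h2, h3⟩
  · have hP := inP hD
    exact ⟨hP, fun h L hL => InP.of_reduces (h L hL) hP⟩
  · intro I
    unfold DegreeRealizability CubicRealizability CubicRotationInP.Cubic
    simp only [List.mem_singleton]

end Pool.Agent.Results.MP_8b4fe7_lc.MaximumDegreeThree
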